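import Mathlib

/-!
Completely multiplicative functions given by their values at the primes, and the orthogonality relation
which detects the residues of the number of prime factors and the parities of the numbers of prime factors
in residue classes.
-/

set_option autoImplicit false

namespace Pool.Agent.K7.H69.JP

open Finset
open scoped ComplexConjugate

/-- the completely multiplicative function with the values `θ p` -/
noncomputable def cmf (θ : ℕ → ℂ) (n : ℕ) : ℂ := (n.primeFactorsList.map θ).prod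

lemma cmf_mul (θ : ℕ → ℂ) {m n : ℕ} (hm : m ≠ 0) (hn : n ≠ 0) :
    cmf θ (m * n) = cmf θ m * cmf θ n := by
  unfold cmf
  rw [((Nat.perm_primeFactorsList_mul hm hn).map θ).prod_eq, List.map_append, List.prod_append]

lemma cmf_prime (θ : ℕ → ℂ) {p : ℕ} (hp : p.Prime) : cmf θ p = θ p := by
  unfold cmf
  rw [Nat.primeFactorsList_prime hp]
  simp

lemma cmf_one (θ : ℕ → ℂ) : cmf θ 1 = 1 := by
  simp [cmf]

lemma cmf_pow (θ : ℕ → ℂ) {N : ℕ} (h : ∀ p, θ p ^ N = 1) (n : ℕ) : cmf θ n ^ N = 1 := by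
  unfold cmf
  induction n.primeFactorsList with
  | nil => simp
  | cons a l ih => rw [List.map_cons, List.prod_cons, mul_pow, h, ih, one_mul]

lemma cmf_norm (θ : ℕ → ℂ) {N : ℕ} (hN : N ≠ 0) (h : ∀ p, θ p ^ N = 1) (n : ℕ) : ‖cmf θ n‖ = 1 :=
  Complex.norm_eq_one_of_pow_eq_one (cmf_pow θ h n) hN

lemma cmf_sqf (θ : ℕ → ℂ) {n : ℕ} (hn : Squarefree n) : cmf θ n = ∏ p ∈ n.primeFactors, θ p := by
  unfold cmf
  have h : n.primeFactorsList.Nodup := (Nat.squarefree_iff_nodup_primeFactorsList hn.ne_zero).1 hn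
  rw [← List.prod_toFinset _ h]
  rfl

/-- the number of prime factors in the class `a` -/
def cn (M : ℕ) (a : ZMod M) (n : ℕ) : ℕ := (n.primeFactors.filter (fun p : ℕ => (p : ZMod M) = a)).card

open scoped Classical in
/-- the sign function -/
noncomputable def eps {M : ℕ} (z : ℂ) (J : Finset (ZMod M)) (x : ZMod M) : ℂ :=
  z * (if x ∈ J then -1 else 1)

/-- the value at a prime -/
noncomputable def th {M : ℕ} (z : ℂ) (J : Finset (ZMod M)) (p : ℕ) : ℂ := eps z J (p : ZMod M)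

lemma eps_sq {M : ℕ} (z : ℂ) (J : Finset (ZMod M)) (x : ZMod M) : eps z J x * eps z J x = z ^ 2 := by
  unfold eps
  split_ifs <;> ring

lemma eps_pow {M k : ℕ} {z : ℂ} (hz : z ^ k = 1) (J : Finset (ZMod M)) (x : ZMod M) :
    eps z J x ^ (2 * k) = 1 := by
  rw [pow_mul, pow_two, eps_sq, ← pow_mul, mul_comm, pow_mul, hz, one_pow]

lemma cmf_th {M : ℕ} (z : ℂ) (J : Finset (ZMod M)) {n : ℕ} (hn : Squarefree n) :
    cmf (th z J) n = z ^ n.primeFactors.card * ∏ a ∈ J, (-1 : ℂ) ^ cn M a n := by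
  classical
  rw [cmf_sqf _ hn]
  unfold th eps
  rw [prod_mul_distrib, prod_const]
  congr 1
  have h1 : ∀ p ∈ n.primeFactors, (if ((p : ZMod M)) ∈ J then (-1 : ℂ) else 1) =
      ∏ a ∈ J, (if (p : ZMod M) = a then (-1 : ℂ) else 1) := by
    intro p _
    rw [prod_ite_eq]
  rw [prod_congr rfl h1, prod_comm]
  refine prod_congr rfl fun a _ => ?_
  rw [← prod_filter, prod_const]
  rfl

/-- orthogonality for the parities -/
lemma orth_J {M : ℕ} (U : Finset (ZMod M)) (m n : ℕ) :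
    ∑ J ∈ U.powerset, (∏ a ∈ J, (-1 : ℂ) ^ cn M a m) * conj (∏ a ∈ J, (-1 : ℂ) ^ cn M a n) =
      if (∀ a ∈ U, cn M a m % 2 = cn M a n % 2) then (2 : ℂ) ^ U.card else 0 := by
  classical
  have h1 : ∀ J ∈ U.powerset, (∏ a ∈ J, (-1 : ℂ) ^ cn M a m) * conj (∏ a ∈ J, (-1 : ℂ) ^ cn M a n) =
      ∏ a ∈ J, (-1 : ℂ) ^ (cn M a m + cn M a n) := by
    intro J _
    rw [map_prod, ← prod_mul_distrib]
    refine prod_congr rfl fun a _ => ?_
    rw [map_pow, map_neg, map_one, pow_add]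
  rw [sum_congr rfl h1, ← prod_one_add]
  split_ifs with h
  · have h2 : ∀ a ∈ U, (1 + (-1 : ℂ) ^ (cn M a m + cn M a n)) = 2 := by
      intro a ha
      have h3 : Even (cn M a m + cn M a n) := by
        rw [Nat.even_iff]
        have := h a ha
        omega
      rw [h3.neg_one_pow]
      norm_num
    rw [prod_congr rfl h2, prod_const]
  · push Not at h
    obtain ⟨a, ha, h3⟩ := h
    refine prod_eq_zero ha ?_
    have h4 : Odd (cn M a m + cn M a n) := by
      rw [Nat.odd_iff]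
      omega
    rw [h4.neg_one_pow]
    norm_num

/-- orthogonality for the number of prime factors -/
lemma orth_b {k : ℕ} (hk : 1 ≤ k) {ζ : ℂ} (hζ : IsPrimitiveRoot ζ k) (x y : ℕ) :
    ∑ b ∈ range k, (ζ ^ b) ^ x * conj ((ζ ^ b) ^ y) = if x ≡ y [MOD k] then (k : ℂ) else 0 := by
  classical
  have hk0 : k ≠ 0 := by omega
  have hz0 : ζ ≠ 0 := hζ.ne_zero hk0
  have hn : ‖ζ‖ = 1 := Complex.norm_eq_one_of_pow_eq_one hζ.pow_eq_one hk0
  have hc : conj ζ = ζ⁻¹ := by
    rw [Complex.inv_def, Complex.normSq_eq_norm_sq, hn]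
    simp
  have h1 : ∀ b ∈ range k, (ζ ^ b) ^ x * conj ((ζ ^ b) ^ y) = (ζ ^ x * (ζ ^ y)⁻¹) ^ b := by
    intro b _
    rw [map_pow, map_pow, hc, mul_pow, ← pow_mul, ← pow_mul, ← pow_mul, inv_pow, inv_pow,
      ← pow_mul, mul_comm x b, mul_comm y b]
  rw [sum_congr rfl h1]
  split_ifs with h
  · have h2 : ζ ^ x = ζ ^ y := by
      rw [← Nat.mod_add_div x k, ← Nat.mod_add_div y k, pow_add, pow_add, pow_mul, pow_mul,
        hζ.pow_eq_one, one_pow, one_pow, mul_one, mul_one, h]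
    have h3 : ζ ^ x * (ζ ^ y)⁻¹ = 1 := by
      rw [h2]
      exact mul_inv_cancel₀ (pow_ne_zero _ hz0)
    rw [h3]
    simp
  · have h3 : ζ ^ x * (ζ ^ y)⁻¹ ≠ 1 := by
      intro h4
      apply h
      have h5 : ζ ^ x = ζ ^ y := by
        field_simp at h4
        exact h4
      have h6 : ζ ^ (x % k) = ζ ^ (y % k) := by
        rw [← Nat.mod_add_div x k, ← Nat.mod_add_div y k, pow_add, pow_add, pow_mul, pow_mul,
          hζ.pow_eq_one, one_pow, one_pow, mul_one, mul_one] at h5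
        exact h5
      exact hζ.pow_inj (Nat.mod_lt _ (by omega)) (Nat.mod_lt _ (by omega)) h6
    have h4 : (ζ ^ x * (ζ ^ y)⁻¹) ^ k = 1 := by
      rw [mul_pow, inv_pow, ← pow_mul, ← pow_mul, mul_comm x k, mul_comm y k, pow_mul, pow_mul,
        hζ.pow_eq_one, one_pow, one_pow]
      simp
    have h5 := mul_neg_geom_sum (ζ ^ x * (ζ ^ y)⁻¹) k
    rw [h4, sub_self] at h5
    rcases mul_eq_zero.1 h5 with h6 | h6
    · exact absurd (sub_eq_zero.1 h6).symm h3
    · exact h6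

/-- the joint pattern -/
def Pat (k M : ℕ) (U : Finset (ZMod M)) (m n : ℕ) : Prop :=
  m.primeFactors.card ≡ n.primeFactors.card [MOD k] ∧ ∀ a ∈ U, cn M a m % 2 = cn M a n % 2

open scoped Classical in
/-- orthogonality -/
theorem orth {k M : ℕ} (hk : 1 ≤ k) {ζ : ℂ} (hζ : IsPrimitiveRoot ζ k) (U : Finset (ZMod M)) {m n : ℕ}
    (hm : Squarefree m) (hn : Squarefree n) :
    ∑ i ∈ range k ×ˢ U.powerset, cmf (th (ζ ^ i.1) i.2) m * conj (cmf (th (ζ ^ i.1) i.2) n) =
      if Pat k M U m n then (k : ℂ) * 2 ^ U.card else 0 := by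
  rw [sum_product]
  have h1 : ∀ b ∈ range k, ∀ J ∈ U.powerset, cmf (th (ζ ^ b) J) m * conj (cmf (th (ζ ^ b) J) n) =
      ((ζ ^ b) ^ m.primeFactors.card * conj ((ζ ^ b) ^ n.primeFactors.card)) *
        ((∏ a ∈ J, (-1 : ℂ) ^ cn M a m) * conj (∏ a ∈ J, (-1 : ℂ) ^ cn M a n)) := by
    intro b _ J _
    rw [cmf_th _ _ hm, cmf_th _ _ hn, map_mul]
    ring
  rw [sum_congr rfl fun b hb => sum_congr rfl fun J hJ => h1 b hb J hJ]
  rw [sum_congr rfl fun b _ => (mul_sum _ _ _).symm, ← sum_mul, orth_b hk hζ, orth_J]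
  unfold Pat
  by_cases h2 : m.primeFactors.card ≡ n.primeFactors.card [MOD k]
  · by_cases h3 : ∀ a ∈ U, cn M a m % 2 = cn M a n % 2
    · rw [if_pos h2, if_pos h3, if_pos ⟨h2, h3⟩]
    · have h4 : ¬ (m.primeFactors.card ≡ n.primeFactors.card [MOD k] ∧
          ∀ a ∈ U, cn M a m % 2 = cn M a n % 2) := fun hh => h3 hh.2
      rw [if_neg h3, if_neg h4, mul_zero]
  · have h4 : ¬ (m.primeFactors.card ≡ n.primeFactors.card [MOD k] ∧
        ∀ a ∈ U, cn M a m % 2 = cn M a n % 2) := fun hh => h2 hh.1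
    rw [if_neg h2, if_neg h4, zero_mul]

end Pool.Agent.K7.H69.JP
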