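import Pool.Agent.K7.H69.JP.Cmf

/-!
The deviation from equidistribution of the patterns.
-/

set_option autoImplicit false

namespace Pool.Agent.K7.H69.JP

open Finset
open scoped ComplexConjugate

open scoped Classical in
theorem dev_bound {k M : ℕ} (hk : 1 ≤ k) {ζ : ℂ} (hζ : IsPrimitiveRoot ζ k) (U : Finset (ZMod M))
    (A : Finset (ℕ × Finset (ZMod M))) (hA : A ⊆ range k ×ˢ U.powerset) {m : ℕ} (hm : Squarefree m)
    (B : Finset (ℕ × ℕ)) (hB : ∀ p ∈ B, Squarefree (p.1 * p.2))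
    (hAB : ∀ i ∈ A, ∀ p ∈ B, cmf (th (ζ ^ i.1) i.2) (p.1 * p.2) = cmf (th (ζ ^ i.1) i.2) m) :
    |(k : ℝ) * 2 ^ U.card * ((B.filter (fun p => Pat k M U (p.1 * p.2) m)).card : ℝ) -
      A.card * B.card| ≤ ∑ i ∈ (range k ×ˢ U.powerset) \ A,
        ‖∑ p ∈ B, cmf (th (ζ ^ i.1) i.2) p.1 * cmf (th (ζ ^ i.1) i.2) p.2‖ := by
  have hk0 : k ≠ 0 := by omega
  have hpow : ∀ (b : ℕ) (J : Finset (ZMod M)) (p : ℕ), th (ζ ^ b) J p ^ (2 * k) = 1 := by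
    intro b J p
    refine eps_pow ?_ J _
    rw [← pow_mul, mul_comm, pow_mul, hζ.pow_eq_one, one_pow]
  have hnorm : ∀ (i : ℕ × Finset (ZMod M)) (n : ℕ), ‖cmf (th (ζ ^ i.1) i.2) n‖ = 1 := fun i n =>
    cmf_norm _ (N := 2 * k) (by omega) (hpow i.1 i.2) n
  -- the double sum
  obtain ⟨D, hD⟩ : ∃ D : ℂ, D = ∑ p ∈ B, ∑ i ∈ range k ×ˢ U.powerset,
      cmf (th (ζ ^ i.1) i.2) (p.1 * p.2) * conj (cmf (th (ζ ^ i.1) i.2) m) := ⟨_, rfl⟩
  have h1 : D = (((k : ℝ) * 2 ^ U.card *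
      ((B.filter (fun p => Pat k M U (p.1 * p.2) m)).card : ℝ) : ℝ) : ℂ) := by
    rw [hD, sum_congr rfl (fun p hp => orth hk hζ U (hB p hp) hm), ← sum_filter, sum_const,
      nsmul_eq_mul]
    push_cast
    ring
  have h2 : D = ∑ i ∈ range k ×ˢ U.powerset, conj (cmf (th (ζ ^ i.1) i.2) m) *
      ∑ p ∈ B, cmf (th (ζ ^ i.1) i.2) (p.1 * p.2) := by
    rw [hD, sum_comm]
    refine sum_congr rfl fun i _ => ?_
    rw [mul_sum]
    exact sum_congr rfl fun p _ => mul_comm _ _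
  rw [← sum_sdiff hA] at h2
  have h3 : ∑ i ∈ A, conj (cmf (th (ζ ^ i.1) i.2) m) *
      ∑ p ∈ B, cmf (th (ζ ^ i.1) i.2) (p.1 * p.2) = (((A.card : ℝ) * B.card : ℝ) : ℂ) := by
    have h4 : ∀ i ∈ A, conj (cmf (th (ζ ^ i.1) i.2) m) *
        ∑ p ∈ B, cmf (th (ζ ^ i.1) i.2) (p.1 * p.2) = (B.card : ℂ) := by
      intro i hi
      rw [sum_congr rfl (fun p hp => hAB i hi p hp), sum_const, nsmul_eq_mul, mul_left_comm,
        mul_comm (conj _) _, Complex.mul_conj, Complex.normSq_eq_norm_sq, hnorm]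
      simp
    rw [sum_congr rfl h4, sum_const, nsmul_eq_mul]
    push_cast
    rfl
  rw [h3] at h2
  have h5 : (((k : ℝ) * 2 ^ U.card * ((B.filter (fun p => Pat k M U (p.1 * p.2) m)).card : ℝ) -
      A.card * B.card : ℝ) : ℂ) = ∑ i ∈ (range k ×ˢ U.powerset) \ A,
        conj (cmf (th (ζ ^ i.1) i.2) m) * ∑ p ∈ B, cmf (th (ζ ^ i.1) i.2) (p.1 * p.2) := by
    rw [Complex.ofReal_sub, ← h1, h2]
    ring
  rw [← Real.norm_eq_abs, ← Complex.norm_real, h5]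
  refine (norm_sum_le _ _).trans (sum_le_sum fun i _ => ?_)
  rw [norm_mul, Complex.norm_conj, hnorm, one_mul]
  refine le_of_eq ?_
  congr 1
  refine sum_congr rfl fun p hp => ?_
  have h6 := (hB p hp).ne_zero
  exact cmf_mul _ (left_ne_zero_of_mul h6) (right_ne_zero_of_mul h6)

end Pool.Agent.K7.H69.JP
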