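import Pool.Agent.W78.EG.Defs
import Pool.Agent.W78.GA.Basic
import Pool.Agent.K7.H69.JP.Cmf

/-!
Integers composed of norms, and a completely multiplicative function which agrees with a character.
-/

set_option autoImplicit false

namespace Pool.Agent.K7.H69.JP

open Finset
open Pool.Agent.W78.GA (Qd nm nm_cast mul_star_self')
open Pool.Agent.W78.EG (Fd)

variable {t c : ℕ} {f : ℕ} {χ : DirichletCharacter ℂ f}

/-- all prime factors of `n` divide values `x^2+tx+c`, and none divides `M` -/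
def NP (t c M n : ℕ) : Prop :=
  ∀ p : ℕ, p.Prime → p ∣ n → (∃ x : ℤ, (p : ℤ) ∣ x ^ 2 + t * x + c) ∧ ¬ p ∣ M

lemma hD_of' (hF : Fd (t : ℤ) (c : ℤ) f χ) : ((t : ℤ)) ^ 2 < 4 * (c : ℤ) := by
  have h1 := hF.disc
  have h2 : (3 : ℤ) ≤ f := by exact_mod_cast hF.three
  linarith

lemma cop_of (hF : Fd (t : ℤ) (c : ℤ) f χ) {M : ℕ} {z : Qd (t : ℤ) (c : ℤ)}
    (hz : IsCoprime ((nm z : ℕ) : ℤ) (M : ℤ)) : IsCoprime z (M : Qd (t : ℤ) (c : ℤ)) := by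
  have hD := hD_of' hF
  have h1 := hz.map (Int.castRingHom (Qd (t : ℤ) (c : ℤ)))
  have h3 : IsCoprime ((nm z : ℕ) : Qd (t : ℤ) (c : ℤ)) ((M : ℕ) : Qd (t : ℤ) (c : ℤ)) := by
    simpa using h1
  rw [← mul_star_self' hD] at h3
  exact h3.of_mul_left_left

/-- the multiplicative case -/
theorem np_main (hF : Fd (t : ℤ) (c : ℤ) f χ) {M : ℕ} {θ : ℕ → ℂ} {ε : ZMod M → ℂ}
    (hθ : ∀ p : ℕ, θ p = ε (p : ZMod M)) (hε : ∀ x, ε x ≠ 0)
    (hm : ∀ z w : Qd (t : ℤ) (c : ℤ), IsCoprime z (M : Qd (t : ℤ) (c : ℤ)) →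
      IsCoprime w (M : Qd (t : ℤ) (c : ℤ)) →
      ε ((nm (z * w) : ℕ) : ZMod M) = ε ((nm z : ℕ) : ZMod M) * ε ((nm w : ℕ) : ZMod M)) (n : ℕ) :
    n ≠ 0 → NP t c M n → (∃ z : Qd (t : ℤ) (c : ℤ), nm z = n ∧
      IsCoprime z (M : Qd (t : ℤ) (c : ℤ))) ∧ cmf θ n = ε (n : ZMod M) := by
  induction n using Nat.recOnMul with
  | zero => intro h; exact absurd rfl h
  | one =>
    intro _ _
    have h1 : IsCoprime (1 : Qd (t : ℤ) (c : ℤ)) (M : Qd (t : ℤ) (c : ℤ)) := isCoprime_one_left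
    refine ⟨⟨1, Pool.Agent.W78.GA.nm_one, h1⟩, ?_⟩
    have h2 := hm 1 1 h1 h1
    rw [mul_one, Pool.Agent.W78.GA.nm_one] at h2
    have h3 : ε ((1 : ℕ) : ZMod M) = 1 := by
      have h4 := hε ((1 : ℕ) : ZMod M)
      field_simp at h2
      exact h2.symm
    rw [cmf_one, h3]
  | prime p hp =>
    intro _ hn
    obtain ⟨⟨x, hx⟩, hpM⟩ := hn p hp dvd_rfl
    refine ⟨?_, ?_⟩
    · obtain ⟨z, hz, -⟩ := hF.red p (-x) hp.one_lt.le (by
        have : (-x) ^ 2 - (t : ℤ) * (-x) + (c : ℤ) = x ^ 2 + t * x + c := by ring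
        rw [this]
        exact hx)
      refine ⟨z, hz, cop_of hF ?_⟩
      rw [hz]
      exact Nat.isCoprime_iff_coprime.2 ((Nat.Prime.coprime_iff_not_dvd hp).2 hpM)
    · rw [cmf_prime _ hp, hθ]
  | mul a b iha ihb =>
    intro h0 hn
    have ha : a ≠ 0 := left_ne_zero_of_mul h0
    have hb : b ≠ 0 := right_ne_zero_of_mul h0
    obtain ⟨⟨z, hz, hzc⟩, h1⟩ := iha ha (fun p hp hd => hn p hp (hd.mul_right _))
    obtain ⟨⟨w, hw, hwc⟩, h2⟩ := ihb hb (fun p hp hd => hn p hp (hd.mul_left _))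
    have h3 := hm z w hzc hwc
    have h4 : nm (z * w) = a * b := by rw [Pool.Agent.W78.GA.nm_mul, hz, hw]
    refine ⟨⟨z * w, h4, hzc.mul_left hwc⟩, ?_⟩
    rw [cmf_mul _ ha hb, h1, h2]
    rw [h4, hz, hw] at h3
    exact h3.symm

end Pool.Agent.K7.H69.JP
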