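import Pool.Agent.TH890.DV.C3
import Pool.Agent.K7.H69.JP.Nrm
import Pool.Agent.K7.H69.JP.Dev

/-!
Joint patterns of the prime factors of the squarefree values of `n^2+tn+c`: the number of prime factors
modulo `k` and the parities of the numbers of prime factors in all residue classes modulo `M`.
-/

set_option autoImplicit false

namespace Pool.Agent.K7.H69.JP

open Finset Filter
open scoped ComplexConjugate
open Pool.Agent.W78.GA (Qd nm nm_cast mul_star_self')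
open Pool.Agent.W78.EG
open Pool.Agent.W251.EG
open Pool.Agent.W251.EX (Sqp tt sum_null)
open Pool.Agent.TH890.DV
open Pool.Agent.W738.EG (red red_eq PerM)

variable {t c : ℕ} {f : ℕ} {χ : DirichletCharacter ℂ f}

theorem exists_mem_null {ι : Type} (s : Finset ι) {P : ι → ℕ → Prop} (h : ∀ i ∈ s, LogNull (P i)) :
    LogNull (fun X => ∃ i ∈ s, P i X) := by
  classical
  induction s using Finset.induction_on with
  | empty =>
    refine LogNull.of_ev 0 ?_ LogNull.empty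
    rintro X - ⟨i, hi, -⟩
    exact absurd hi (Finset.notMem_empty i)
  | insert a s ha ih =>
    refine LogNull.of_or ?_ (ih (fun i hi => h i (mem_insert_of_mem hi))) (h a (mem_insert_self _ _))
    rintro X ⟨i, hi, hX⟩
    rcases mem_insert.1 hi with h1 | h1
    · subst h1; exact Or.inr hX
    · exact Or.inl ⟨i, h1, hX⟩

open scoped Classical in
/-- the pairs `(d, d')`, `d, d' ≤ X`, with a squarefree product `n^2+tn+c`, `n ≡ a mod q` -/
noncomputable def BB (t c q a X : ℕ) : Finset (ℕ × ℕ) :=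
  ((Icc 1 X) ×ˢ (Icc 1 X)).filter (fun p => Squarefree (p.1 * p.2) ∧
    ∃ n : ℕ, 1 ≤ n + t ∧ p.1 * p.2 = n ^ 2 + t * n + c ∧ n ≡ a [MOD q])

lemma mem_BB {q a X : ℕ} {p : ℕ × ℕ} : p ∈ BB t c q a X ↔ ((1 ≤ p.1 ∧ p.1 ≤ X) ∧ 1 ≤ p.2 ∧ p.2 ≤ X) ∧
    Squarefree (p.1 * p.2) ∧ ∃ n : ℕ, 1 ≤ n + t ∧ p.1 * p.2 = n ^ 2 + t * n + c ∧ n ≡ a [MOD q] := by
  classical
  unfold BB
  rw [mem_filter, mem_product, mem_Icc, mem_Icc]

open scoped Classical in
lemma BB_eq (q a X : ℕ) : BB t c q a X = (SP (t : ℤ) (c : ℤ) X).filter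
    (fun p => Squarefree (p.1 * p.2) ∧ ∃ n : ℕ, 0 < 2 * (n : ℤ) + (t : ℤ) ∧
      (p.1 * p.2 : ℤ) = (n : ℤ) ^ 2 + (t : ℤ) * n + (c : ℤ) ∧ n ≡ a [MOD q]) := by
  ext p
  rw [mem_BB, mem_filter]
  constructor
  · rintro ⟨h1, h2, n, h3, h4, h5⟩
    have h6 := (fcond n p.1 p.2).2 ⟨h3, h4⟩
    refine ⟨?_, h2, n, h6.1, h6.2, h5⟩
    unfold SP
    rw [mem_filter, mem_product, mem_Icc, mem_Icc]
    exact ⟨h1, n, h6⟩
  · rintro ⟨h1, h2, n, h3, h4, h5⟩
    have h6 := (fcond n p.1 p.2).1 ⟨h3, h4⟩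
    unfold SP at h1
    rw [mem_filter, mem_product, mem_Icc, mem_Icc] at h1
    exact ⟨h1.1, h2, n, h6.1, h6.2, h5⟩

theorem cancel (hF : Fd (t : ℤ) (c : ℤ) f χ) {N : ℕ} {τ : ℂ} {g : ℕ → ℂ} (hg : FGc χ N τ g g)
    (hap : Apd N (fun z : Qd (t : ℤ) (c : ℤ) => g (nm z))) (q a : ℕ) (hq : 1 ≤ q) (δ : ℝ)
    (hδ : 0 < δ) : LogNull (fun X => δ * X < ‖∑ p ∈ BB t c q a X, g p.1 * g p.2‖) := by
  classical
  have hnull : Tendsto (fun Z : ℕ => (∑ X ∈ (Icc 1 Z).filter (fun X : ℕ => δ * X <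
      ∑ r ∈ range q, ‖∑ p ∈ (SW (t : ℤ) (c : ℤ) q a r 0 1 0 1 X).filter
      (fun p => Squarefree (p.1 * p.2)), g p.1 * g p.2‖), 1 / (X : ℝ)) / Real.log Z)
      atTop (nhds 0) :=
    sum_null hq (fun r _ ε' hε' => tt (fun X => ∑ p ∈ (SW (t : ℤ) (c : ℤ) q a r 0 1 0 1 X).filter
      (fun p => Squarefree (p.1 * p.2)), g p.1 * g p.2)
    (fun δ hδ => by
      have := tsG hF N τ g g hg (Or.inr hap) q a r hq 0 1 0 1 le_rfl
        one_pos le_rfl le_rfl one_pos le_rfl δ hδ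
      convert this using 5) ε' hε') δ hδ
  have hnull' : LogNull (fun X : ℕ => δ * X < ∑ r ∈ range q,
      ‖∑ p ∈ (SW (t : ℤ) (c : ℤ) q a r 0 1 0 1 X).filter
      (fun p => Squarefree (p.1 * p.2)), g p.1 * g p.2‖) := by
    unfold LogNull
    convert hnull using 5
  refine LogNull.of_ev 0 (fun X _ hlt => lt_of_lt_of_le hlt ?_) hnull'
  obtain ⟨B, hB⟩ : ∃ B : Finset (ℕ × ℕ), B = BB t c q a X := ⟨_, rfl⟩
  rw [← hB]
  have h2 : ∑ p ∈ B, g p.1 * g p.2 = ∑ r ∈ range q,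
      ∑ p ∈ (SW (t : ℤ) (c : ℤ) q a r 0 1 0 1 X).filter (fun p => Squarefree (p.1 * p.2)),
      g p.1 * g p.2 := by
    rw [← sum_fiberwise_of_maps_to (s := B) (t := range q) (g := fun p : ℕ × ℕ => p.1 % q)
      (fun p _ => mem_range.2 (Nat.mod_lt _ (by omega)))]
    refine sum_congr rfl fun r hr => ?_
    refine sum_congr ?_ fun _ _ => rfl
    have hr' : r % q = r := Nat.mod_eq_of_lt (mem_range.1 hr)
    ext p
    rw [mem_filter, mem_filter, mem_SWn, hB, mem_BB]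
    constructor
    · rintro ⟨⟨⟨⟨h7, h8⟩, h9, h10⟩, h6, n, h11, h12, h13⟩, h4⟩
      refine ⟨⟨⟨⟨h7, h8⟩, h9, h10⟩, ⟨n, h11, h12, h13, ?_⟩, ?_, ?_, ?_, ?_⟩, h6⟩
      · show p.1 % q = r % q
        rw [h4, hr']
      · rw [zero_mul]; exact_mod_cast h7
      · rw [one_mul]; exact_mod_cast h8
      · rw [zero_mul]; exact_mod_cast h9
      · rw [one_mul]; exact_mod_cast h10
    · rintro ⟨⟨⟨h3, h4⟩, ⟨n, h5, h6, h7, h8⟩, _⟩, h9⟩
      refine ⟨⟨⟨h3, h4⟩, h9, n, h5, h6, h7⟩, ?_⟩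
      have h11 : p.1 % q = r % q := h8
      rw [h11, hr']
  rw [h2]
  exact norm_sum_le _ _

/-- the multiplicative combinations -/
def Mul (t c M : ℕ) (z : ℂ) (J : Finset (ZMod M)) : Prop :=
  ∀ x y : Qd (t : ℤ) (c : ℤ), IsCoprime x (M : Qd (t : ℤ) (c : ℤ)) →
    IsCoprime y (M : Qd (t : ℤ) (c : ℤ)) →
    eps z J ((nm (x * y) : ℕ) : ZMod M) = eps z J ((nm x : ℕ) : ZMod M) * eps z J ((nm y : ℕ) : ZMod M)

/-- the others are aperiodic -/
theorem apd_of (hF : Fd (t : ℤ) (c : ℤ) f χ) {k M : ℕ} (hk : 1 ≤ k) (hM : 1 ≤ M) {z : ℂ} (hz : z ^ k = 1)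
    {J : Finset (ZMod M)} (h : ¬ Mul t c M z J) :
    Apd (2 * k) (fun w : Qd (t : ℤ) (c : ℤ) => cmf (th z J) (nm w)) := by
  have hD := hDG hF
  have hP := Pool.Agent.W290.EG.pid hF
  unfold Mul at h
  push Not at h
  have hpow : ∀ p : ℕ, th z J p ^ (2 * k) = 1 := fun p => eps_pow hz J _
  refine apdE hF hP (lconG hF) (Pool.Agent.W240.EG.lnv hF hP (lconG hF)) (m := M)
    (E := fun w => eps z J ((nm w : ℕ) : ZMod M)) ⟨hM, ?_, fun x y hx hy => cmf_mul _ hx hy,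
      fun n => cmf_norm _ (N := 2 * k) (by omega) hpow n, ?_⟩ ?_ (by omega) (fun n => cmf_pow _ hpow n)
  · intro x y hxy
    rw [red_eq] at hxy
    show eps z J ((nm x : ℕ) : ZMod M) = eps z J ((nm y : ℕ) : ZMod M)
    congr 1
    have h1 : ((nm x : ℕ) : ZMod M) = (((nm x : ℕ) : ℤ) : ZMod M) := by push_cast; rfl
    have h2 : ((nm y : ℕ) : ZMod M) = (((nm y : ℕ) : ℤ) : ZMod M) := by push_cast; rfl
    have h3 : (x.re : ZMod M) = (y.re : ZMod M) := by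
      rw [ZMod.intCast_eq_intCast_iff_dvd_sub, ← Int.neg_sub, dvd_neg]
      exact hxy.1
    have h4 : (x.im : ZMod M) = (y.im : ZMod M) := by
      rw [ZMod.intCast_eq_intCast_iff_dvd_sub, ← Int.neg_sub, dvd_neg]
      exact hxy.2
    rw [h1, h2, nm_cast hD x, nm_cast hD y]
    push_cast
    rw [h3, h4]
  · intro w hw _
    exact cmf_prime _ hw
  · exact h

theorem fgc_of (χ : DirichletCharacter ℂ f) {k M : ℕ} (hk : 1 ≤ k) {z : ℂ} (hz : z ^ k = 1)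
    (J : Finset (ZMod M)) : FGc χ (2 * k) (z ^ 2) (cmf (th z J)) (cmf (th z J)) where
  pos := by omega
  m₁ := fun x y hx hy => cmf_mul _ hx hy
  m₂ := fun x y hx hy => cmf_mul _ hx hy
  p₁ := fun n => cmf_pow _ (fun p => eps_pow hz J _) n
  p₂ := fun n => cmf_pow _ (fun p => eps_pow hz J _) n
  tw := fun p hp _ => by
    rw [cmf_prime _ hp]
    exact eps_sq z J _

/-- the values and the target agree outside a common factor -/
def Adm (t c M q a m : ℕ) : Prop := ∀ n : ℕ, n ≡ a [MOD q] → 1 ≤ n + t →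
  Squarefree (n ^ 2 + t * n + c) → ∃ e w w' : ℕ, n ^ 2 + t * n + c = e * w ∧ m = e * w' ∧
    NP t c M w ∧ NP t c M w' ∧ (w : ZMod M) = w'

open scoped Classical in
/-- the equidistribution of the patterns over the pairs, and the lower bound for the integers -/
theorem core (hF : Fd (t : ℤ) (c : ℤ) f χ) (hS : S_SPSc (t : ℤ) (c : ℤ)) {k M : ℕ} (hk : 1 ≤ k)
    (hM : 1 ≤ M) (U : Finset (ZMod M)) : ∃ ρ : ℝ, 0 < ρ ∧ ∀ q a : ℕ, 1 ≤ q →
    (∀ l : ℕ, l.Prime → l ^ 2 ∣ q → ¬ l ^ 2 ∣ a ^ 2 + t * a + c) → ∀ m : ℕ, Squarefree m →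
    Adm t c M q a m →
    (∀ δ : ℝ, 0 < δ → LogNull (fun X => δ * X <
      |(((BB t c q a X).filter (fun p => Pat k M U (p.1 * p.2) m)).card : ℝ) -
        ρ * (BB t c q a X).card|)) ∧
    ∀ ε : ℝ, 0 < ε → LogNull (fun X => (((range (X + 1)).filter (fun n : ℕ => 1 ≤ n + t ∧ n ≡ a [MOD q] ∧
      Squarefree (n ^ 2 + t * n + c) ∧ Pat k M U (n ^ 2 + t * n + c) m)).card : ℝ) <
      X / Real.log X ^ (Real.log 2 + ε)) := by
  have ht := t_le hF
  have hc := c_pos hF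
  obtain ⟨ζ, hζ⟩ : ∃ ζ : ℂ, IsPrimitiveRoot ζ k := ⟨_, Complex.isPrimitiveRoot_exp k (by omega)⟩
  have hz : ∀ b : ℕ, (ζ ^ b) ^ k = 1 := fun b => by
    rw [← pow_mul, mul_comm, pow_mul, hζ.pow_eq_one, one_pow]
  obtain ⟨I, hI⟩ : ∃ I : Finset (ℕ × Finset (ZMod M)), I = range k ×ˢ U.powerset := ⟨_, rfl⟩
  obtain ⟨A, hA⟩ : ∃ A : Finset (ℕ × Finset (ZMod M)), A = I.filter
    (fun i => Mul t c M (ζ ^ i.1) i.2) := ⟨_, rfl⟩
  have hAI : A ⊆ I := by rw [hA]; exact filter_subset _ _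
  have h0A : ((0, ∅) : ℕ × Finset (ZMod M)) ∈ A := by
    rw [hA, mem_filter, hI, mem_product, mem_range]
    refine ⟨⟨by simp only; omega, by simp⟩, ?_⟩
    intro x y _ _
    simp [eps]
  have hAc : (0 : ℝ) < A.card := by exact_mod_cast card_pos.2 ⟨_, h0A⟩
  have hkR : (0 : ℝ) < k := by exact_mod_cast (by omega : 0 < k)
  have hK : (0 : ℝ) < (k : ℝ) * 2 ^ U.card := by positivity
  refine ⟨A.card / ((k : ℝ) * 2 ^ U.card), by positivity, fun q a hq hqa m hm hadm => ?_⟩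
  -- the constant functions
  have hconst : ∀ i ∈ A, ∀ (X : ℕ), ∀ p ∈ BB t c q a X,
      cmf (th (ζ ^ i.1) i.2) (p.1 * p.2) = cmf (th (ζ ^ i.1) i.2) m := by
    intro i hi X p hp
    rw [hA, mem_filter] at hi
    obtain ⟨-, h1, n, h2, h3, h4⟩ := mem_BB.1 hp
    rw [h3] at h1 ⊢
    obtain ⟨e, w, w', h5, h6, h7, h8, h9⟩ := hadm n h4 h2 h1
    have h10 : e * w ≠ 0 := by rw [← h5]; exact h1.ne_zero
    have h11 : e * w' ≠ 0 := by rw [← h6]; exact hm.ne_zero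
    rw [h5, h6, cmf_mul _ (left_ne_zero_of_mul h10) (right_ne_zero_of_mul h10),
      cmf_mul _ (left_ne_zero_of_mul h11) (right_ne_zero_of_mul h11)]
    have hε : ∀ x : ZMod M, eps (ζ ^ i.1) i.2 x ≠ 0 := by
      intro x hx
      have := eps_pow (hz i.1) i.2 x
      rw [hx, zero_pow (by omega)] at this
      exact one_ne_zero this.symm
    rw [(np_main (θ := th (ζ ^ i.1) i.2) hF (fun p => rfl) hε hi.2 w (right_ne_zero_of_mul h10) h7).2,
      (np_main (θ := th (ζ ^ i.1) i.2) hF (fun p => rfl) hε hi.2 w' (right_ne_zero_of_mul h11) h8).2, h9]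
  -- the deviation
  have hdev : ∀ X : ℕ, |(((BB t c q a X).filter (fun p => Pat k M U (p.1 * p.2) m)).card : ℝ) -
      A.card / ((k : ℝ) * 2 ^ U.card) * (BB t c q a X).card| ≤ 1 / ((k : ℝ) * 2 ^ U.card) *
      ∑ i ∈ I \ A, ‖∑ p ∈ BB t c q a X, cmf (th (ζ ^ i.1) i.2) p.1 * cmf (th (ζ ^ i.1) i.2) p.2‖ := by
    intro X
    have h1 := dev_bound hk hζ U A (hI ▸ hAI) hm (BB t c q a X)
      (fun p hp => (mem_BB.1 hp).2.1) (fun i hi p hp => hconst i hi X p hp)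
    rw [← hI] at h1
    have h2 : |(((BB t c q a X).filter (fun p => Pat k M U (p.1 * p.2) m)).card : ℝ) -
      A.card / ((k : ℝ) * 2 ^ U.card) * (BB t c q a X).card| = 1 / ((k : ℝ) * 2 ^ U.card) *
      |(k : ℝ) * 2 ^ U.card * (((BB t c q a X).filter (fun p => Pat k M U (p.1 * p.2) m)).card : ℝ) -
        A.card * (BB t c q a X).card| := by
      have h3 : (((BB t c q a X).filter (fun p => Pat k M U (p.1 * p.2) m)).card : ℝ) -
          A.card / ((k : ℝ) * 2 ^ U.card) * (BB t c q a X).card = 1 / ((k : ℝ) * 2 ^ U.card) *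
          ((k : ℝ) * 2 ^ U.card * (((BB t c q a X).filter (fun p => Pat k M U (p.1 * p.2) m)).card : ℝ) -
          A.card * (BB t c q a X).card) := by
        field_simp
      rw [h3, abs_mul, abs_of_pos (show (0 : ℝ) < 1 / ((k : ℝ) * 2 ^ U.card) by positivity)]
    rw [h2]
    exact mul_le_mul_of_nonneg_left h1 (by positivity)
  have hpart : ∀ δ : ℝ, 0 < δ → LogNull (fun X => δ * X <
      |(((BB t c q a X).filter (fun p => Pat k M U (p.1 * p.2) m)).card : ℝ) -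
        A.card / ((k : ℝ) * 2 ^ U.card) * (BB t c q a X).card|) := by
    intro δ hδ
    obtain ⟨η, hη⟩ : ∃ η : ℝ, η = δ * ((k : ℝ) * 2 ^ U.card) / ((I \ A).card + 1) := ⟨_, rfl⟩
    have hη0 : 0 < η := by rw [hη]; positivity
    have hall : LogNull (fun X => ∃ i ∈ I \ A, η * X <
        ‖∑ p ∈ BB t c q a X, cmf (th (ζ ^ i.1) i.2) p.1 * cmf (th (ζ ^ i.1) i.2) p.2‖) := by
      refine exists_mem_null _ fun i hi => ?_
      rw [Finset.mem_sdiff] at hi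
      have h1 : ¬ Mul t c M (ζ ^ i.1) i.2 := by
        intro h2
        apply hi.2
        rw [hA, mem_filter]
        exact ⟨hi.1, h2⟩
      exact cancel hF (fgc_of χ hk (hz i.1) i.2) (apd_of hF hk hM (hz i.1) h1) q a hq η hη0
    refine LogNull.of_ev 0 (fun X _ hlt => ?_) hall
    by_contra hcon
    push Not at hcon
    have h1 := (hdev X).trans (mul_le_mul_of_nonneg_left (sum_le_sum hcon) (by positivity))
    rw [sum_const, nsmul_eq_mul] at h1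
    have h2 : 1 / ((k : ℝ) * 2 ^ U.card) * ((I \ A).card * (η * X)) =
        δ * X * ((I \ A).card / ((I \ A).card + 1)) := by
      rw [hη]
      field_simp
    rw [h2] at h1
    have h3 : ((I \ A).card : ℝ) / ((I \ A).card + 1) ≤ 1 := by
      rw [div_le_one (by positivity)]
      linarith
    have h4 : δ * X * (((I \ A).card : ℝ) / ((I \ A).card + 1)) ≤ δ * X * 1 :=
      mul_le_mul_of_nonneg_left h3 (by positivity)
    linarith
  refine ⟨hpart, fun ε hε => ?_⟩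
  obtain ⟨c₁, hc₁, X₀, hlow⟩ := hS q a hq
    (fun l hl hlq hd => hqa l hl hlq (by exact_mod_cast hd))
  obtain ⟨ρ, hρ⟩ : ∃ ρ : ℝ, ρ = A.card / ((k : ℝ) * 2 ^ U.card) := ⟨_, rfl⟩
  have hρ0 : 0 < ρ := by rw [hρ]; positivity
  rw [← hρ] at hpart
  obtain ⟨N₁, hpn⟩ := pnL hF (ρ * c₁ / 2) ε (by positivity) hε
  refine LogNull.of_ev (max X₀ N₁) (fun X hX hlt => ?_) (hpart (ρ * c₁ / 2) (by positivity))
  by_contra hcon
  push Not at hcon
  have h1 := hlow X ((le_max_left _ _).trans hX)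
  rw [← BB_eq] at h1
  obtain ⟨S, hSd⟩ : ∃ S : Finset (ℕ × ℕ), S = (BB t c q a X).filter
    (fun p => Pat k M U (p.1 * p.2) m) := ⟨_, rfl⟩
  rw [← hSd] at hcon
  have hS1 : ρ * c₁ / 2 * X ≤ (S.card : ℝ) := by
    have h2 := (abs_le.1 hcon).1
    have h3 : ρ * (c₁ * X) ≤ ρ * (BB t c q a X).card := mul_le_mul_of_nonneg_left h1 hρ0.le
    linarith
  have h3 := hpn X ((le_max_right _ _).trans hX) S (fun p hp => by
    rw [hSd, mem_filter, BB_eq, mem_filter] at hp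
    exact ⟨hp.1.1, hp.1.2.1⟩) hS1
  have h4 : (S.image (fun p : ℕ × ℕ => Nat.sqrt (p.1 * p.2 - c))).card ≤
      ((range (X + 1)).filter (fun n : ℕ => 1 ≤ n + t ∧ n ≡ a [MOD q] ∧
      Squarefree (n ^ 2 + t * n + c) ∧ Pat k M U (n ^ 2 + t * n + c) m)).card := by
    refine card_le_card fun n hn => ?_
    obtain ⟨p, hp, rfl⟩ := mem_image.1 hn
    rw [hSd, mem_filter, mem_BB] at hp
    obtain ⟨⟨⟨⟨_, h8⟩, _, h10⟩, hsf, n, h11, h12, h13⟩, hpe⟩ := hp
    have h14 : Nat.sqrt (p.1 * p.2 - c) = n := by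
      rw [h12]
      exact fsqrt ht n
    rw [h14, mem_filter, mem_range, ← h12]
    refine ⟨?_, h11, h13, hsf, hpe⟩
    by_contra hcon2
    push Not at hcon2
    have h15 : p.1 * p.2 ≤ X * X := Nat.mul_le_mul h8 h10
    nlinarith [Nat.zero_le (t * n)]
  have h5 : ((S.image (fun p : ℕ × ℕ => Nat.sqrt (p.1 * p.2 - c))).card : ℝ) ≤
      (((range (X + 1)).filter (fun n : ℕ => 1 ≤ n + t ∧ n ≡ a [MOD q] ∧
      Squarefree (n ^ 2 + t * n + c) ∧ Pat k M U (n ^ 2 + t * n + c) m)).card : ℝ) := by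
    exact_mod_cast h4
  linarith

end Pool.Agent.K7.H69.JP
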